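import Pool.Agent.W425.BF.Stm

/-! Project BF (owner helper425), part ALG. -/

set_option autoImplicit false

namespace Pool.Agent.W135.BF

open Pool.Agent.W425.BF Polynomial

theorem exists_nat_not_root (Q : ℤ[X]) (hQ : Q ≠ 0) : ∃ M : ℕ, Q.eval (M : ℤ) ≠ 0 := by
  by_contra hcon
  push Not at hcon
  apply hQ
  apply Polynomial.eq_zero_of_infinite_isRoot
  apply Set.infinite_of_injective_forall_mem (f := fun M : ℕ => (M : ℤ)) Nat.cast_injective
  intro M
  exact hcon M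

/-- (a) the choice of `c` -/
theorem exists_c {n : ℕ} (i : Fin n) {S : Type} [Fintype S] (w : S → Fin n → ℤ)
    (hw : ∀ s, w s ≠ 0) :
    ∃ c : Fin n → ℕ, c i = 0 ∧ ∀ s, (∑ x, w s x ≠ 0) ∨ (∑ x, (c x : ℤ) * w s x ≠ 0) := by
  classical
  let P : S → ℤ[X] := fun s => ∑ x ∈ Finset.univ.erase i, C (w s x) * X ^ (x.val)
  have hcoeff : ∀ s x, x ≠ i → (P s).coeff x.val = w s x := by
    intro s x hx
    simp only [P, finset_sum_coeff, coeff_C_mul, coeff_X_pow]
    rw [Finset.sum_eq_single x]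
    · simp
    · intro y _ hy
      have : ¬ (x.val = y.val) := fun h => hy (Fin.ext h.symm)
      simp [this]
    · intro h
      exact absurd (Finset.mem_erase.2 ⟨hx, Finset.mem_univ x⟩) h
  have hP : ∀ s, ∑ x, w s x = 0 → P s ≠ 0 := by
    intro s hs h0
    apply hw s
    have hx : ∀ x, x ≠ i → w s x = 0 := by
      intro x hx
      rw [← hcoeff s x hx, h0]; simp
    funext x
    by_cases hxi : x = i
    · subst hxi
      rw [Finset.sum_eq_single x (fun y _ hy => hx y hy) (fun h => absurd (Finset.mem_univ x) h)] at hs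
      exact hs
    · exact hx x hxi
  let Q : ℤ[X] := ∏ s, if ∑ x, w s x = 0 then P s else 1
  have hQ : Q ≠ 0 := by
    apply Finset.prod_ne_zero_iff.2
    intro s _
    split_ifs with h
    · exact hP s h
    · exact one_ne_zero
  obtain ⟨M, hM⟩ := exists_nat_not_root Q hQ
  refine ⟨fun x => if x = i then 0 else M ^ x.val, by simp, fun s => ?_⟩
  by_cases h : ∑ x, w s x = 0
  · right
    have h1 : (P s).eval (M : ℤ) ≠ 0 := by
      intro h0
      apply hM
      rw [Polynomial.eval_prod]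
      apply Finset.prod_eq_zero (Finset.mem_univ s)
      rw [if_pos h]; exact h0
    have h2 : (P s).eval (M : ℤ) = ∑ x, ((if x = i then 0 else M ^ x.val : ℕ) : ℤ) * w s x := by
      simp only [P, eval_finset_sum, eval_mul, eval_C, eval_pow, eval_X]
      rw [← Finset.add_sum_erase Finset.univ _ (Finset.mem_univ i)]
      simp only [if_true, Nat.cast_zero, zero_mul, zero_add]
      apply Finset.sum_congr rfl
      intro x hx
      rw [if_neg (Finset.ne_of_mem_erase hx)]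
      push_cast
      ring
    rw [← h2]; exact h1
  · exact Or.inl h

theorem ball_inf : Set.Infinite {z : ℂ | ‖z‖ ≤ 1} := by
  have h := infinite_of_mem_nhds (0 : ℂ) (Metric.closedBall_mem_nhds (0 : ℂ) one_pos)
  have e : Metric.closedBall (0 : ℂ) 1 = {z : ℂ | ‖z‖ ≤ 1} := by
    ext z; simp
  rwa [e] at h

theorem ev2_eq (A : ℂ[X][X]) (z t : ℂ) : ev2 A z t = (A.map (evalRingHom z)).eval t := by
  unfold ev2
  rw [eval₂_eq_eval_map]

theorem ev2_hom (A : ℂ[X][X]) (z t : ℂ) : ev2 A z t = eval₂RingHom (evalRingHom z) t A := rfl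

theorem zero_of_ev2 (P : ℂ[X][X]) (h : ∀ z t : ℂ, ‖z‖ ≤ 1 → ‖t‖ ≤ 1 → ev2 P z t = 0) : P = 0 := by
  ext1 k
  rw [coeff_zero]
  apply Polynomial.eq_zero_of_infinite_isRoot
  refine ball_inf.mono ?_
  intro z hz
  have h1 : P.map (evalRingHom z) = 0 := by
    apply Polynomial.eq_zero_of_infinite_isRoot
    refine ball_inf.mono ?_
    intro t ht
    show (P.map (evalRingHom z)).eval t = 0
    rw [← ev2_eq]
    exact h z t hz ht
  have h2 := congrArg (fun Q : ℂ[X] => Q.coeff k) h1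
  simp only [coeff_map, coeff_zero] at h2
  exact h2

/-- (c) coprime factors -/
theorem relprime (α β : ℂ[X]) (N M : ℕ) (hN : 0 < N) (h : β ^ N - α ^ M ≠ 0) :
    IsRelPrime (1 - C α * X ^ N : ℂ[X][X]) (1 - C β * X ^ M) := by
  intro d h1 h2
  have h3 : d ∣ 1 - (C α * X ^ N) ^ M := h1.trans (one_sub_dvd_one_sub_pow _ M)
  have h4 : d ∣ 1 - (C β * X ^ M) ^ N := h2.trans (one_sub_dvd_one_sub_pow _ N)
  have h5 : d ∣ C (β ^ N - α ^ M) := by
    have e : (C (β ^ N - α ^ M) : ℂ[X][X]) =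
        C (β ^ N) * (1 - (C α * X ^ N) ^ M) - C (α ^ M) * (1 - (C β * X ^ M) ^ N) := by
      rw [mul_pow, mul_pow, ← C_pow, ← C_pow, ← pow_mul, ← pow_mul, mul_comm M N, C_sub]
      ring
    rw [e]
    exact dvd_sub (Dvd.dvd.mul_left h3 _) (Dvd.dvd.mul_left h4 _)
  have h6 : (C (β ^ N - α ^ M) : ℂ[X][X]) ≠ 0 := by
    rw [Ne, C_eq_zero]; exact h
  have h7 : d.natDegree ≤ 0 := by
    have := natDegree_le_of_dvd h5 h6
    rwa [natDegree_C] at this
  have h8 : d = C (d.coeff 0) := eq_C_of_natDegree_le_zero h7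
  rw [h8] at h1
  have h9 := (C_dvd_iff_dvd_coeff _ _).1 h1 0
  have h10 : (1 - C α * X ^ N : ℂ[X][X]).coeff 0 = 1 := by
    simp only [coeff_sub, coeff_one_zero, coeff_C_mul, coeff_X_pow]
    rw [if_neg (by omega)]
    ring
  rw [h10] at h9
  rw [h8]
  exact (isUnit_of_dvd_one h9).map C

/-- the factor -/
noncomputable def Fc {n : ℕ} (p : ℕ) (c : Fin n → ℕ) (N : ℕ) (u : Fin n → ℕ) : ℂ[X][X] :=
  1 - C (C ((p : ℂ)⁻¹ ^ (∑ x, u x)) * X ^ (∑ x, c x * u x)) * X ^ N

theorem ev2_Fc {n : ℕ} (p : ℕ) (c : Fin n → ℕ) (N : ℕ) (u : Fin n → ℕ) (z t : ℂ) :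
    ev2 (Fc p c N u) z t = 1 - W2 p c N z t u := by
  rw [ev2_hom]
  simp [Fc, W2, eval₂_mul, eval₂_pow, eval₂_sub]

theorem main : TaskALG := by
  classical
  intro n i T₁ T₂ ray₁ N₁ ray₂ N₂ R h1 h2 h3
  obtain ⟨c, hci, hc⟩ := exists_c i
    (fun s : {q // q ∈ R} × Fin T₂ => fun x => (N₂ s.2 : ℤ) * ray₁ s.1 x - (N₁ s.1 : ℤ) * ray₂ s.2 x)
    (by
      rintro ⟨⟨q, hq⟩, q'⟩ h0
      have h0' : ∀ x, (N₂ q' : ℤ) * ray₁ q x = (N₁ q : ℤ) * ray₂ q' x := by
        intro x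
        have := congrFun h0 x
        simp only [Pi.zero_apply] at this
        linarith
      rcases Nat.eq_zero_or_pos (N₂ q') with hz | hpos
      · apply h2 q'
        funext x
        have h4 := h0' x
        rw [hz] at h4
        simp only [Nat.cast_zero, zero_mul] at h4
        have h5 : N₁ q * ray₂ q' x = 0 := by exact_mod_cast h4.symm
        rcases Nat.mul_eq_zero.1 h5 with h6 | h6
        · have := h1 q hq; omega
        · exact h6
      · apply h3 q hq q'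
        exact ⟨N₂ q', N₁ q, hpos, h1 q hq, fun x => by exact_mod_cast h0' x⟩)
  refine ⟨c, hci, ?_⟩
  intro p hp A B hAB
  have hid : A * ∏ q', Fc p c (N₂ q') (ray₂ q') = B * ∏ q, Fc p c (N₁ q) (ray₁ q) := by
    rw [← sub_eq_zero]
    apply zero_of_ev2
    intro z t hz ht
    rw [ev2_hom, map_sub, map_mul, map_mul, map_prod, map_prod]
    simp only [← ev2_hom, ev2_Fc]
    rw [hAB z t hz ht, sub_self]
  have hrel : ∀ q ∈ R, ∀ q', IsRelPrime (Fc p c (N₁ q) (ray₁ q)) (Fc p c (N₂ q') (ray₂ q')) := by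
    intro q hq q'
    apply relprime _ _ _ _ (h1 q hq)
    intro h0
    rw [sub_eq_zero, mul_pow, mul_pow, ← C_pow, ← C_pow, ← pow_mul, ← pow_mul, ← pow_mul,
      ← pow_mul] at h0
    have hp0 : (p : ℂ)⁻¹ ≠ 0 := by
      apply inv_ne_zero
      have : p ≠ 0 := by omega
      exact_mod_cast this
    have hdeg := congrArg natDegree h0
    rw [natDegree_C_mul_X_pow _ _ (pow_ne_zero _ hp0),
      natDegree_C_mul_X_pow _ _ (pow_ne_zero _ hp0)] at hdeg
    have hlead := congrArg leadingCoeff h0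
    rw [leadingCoeff_C_mul_X_pow, leadingCoeff_C_mul_X_pow] at hlead
    have hexp : (∑ x, ray₂ q' x) * N₁ q = (∑ x, ray₁ q x) * N₂ q' := by
      rw [inv_pow, inv_pow, inv_inj] at hlead
      have h5 : p ^ ((∑ x, ray₂ q' x) * N₁ q) = p ^ ((∑ x, ray₁ q x) * N₂ q') := by
        exact_mod_cast hlead
      exact Nat.pow_right_injective hp h5
    rcases hc (⟨q, hq⟩, q') with h6 | h6
    · apply h6
      simp only [Finset.sum_sub_distrib, ← Finset.mul_sum]
      have : ((∑ x, ray₂ q' x : ℕ) : ℤ) * N₁ q = ((∑ x, ray₁ q x : ℕ) : ℤ) * N₂ q' := by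
        exact_mod_cast hexp
      push_cast at this
      linarith
    · apply h6
      have : ((∑ x, c x * ray₂ q' x : ℕ) : ℤ) * N₁ q = ((∑ x, c x * ray₁ q x : ℕ) : ℤ) * N₂ q' := by
        exact_mod_cast hdeg
      push_cast at this
      have e : ∑ x, (c x : ℤ) * ((N₂ q' : ℤ) * ray₁ q x - (N₁ q : ℤ) * ray₂ q' x) =
          (∑ x, (c x : ℤ) * ray₁ q x) * N₂ q' - (∑ x, (c x : ℤ) * ray₂ q' x) * N₁ q := by
        rw [Finset.sum_mul, Finset.sum_mul, ← Finset.sum_sub_distrib]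
        apply Finset.sum_congr rfl
        intro x _
        ring
      show ∑ x, (c x : ℤ) * ((N₂ q' : ℤ) * ray₁ q x - (N₁ q : ℤ) * ray₂ q' x) = 0
      rw [e, this, sub_self]
  have hrel2 : IsRelPrime (∏ q ∈ R, Fc p c (N₁ q) (ray₁ q)) (∏ q', Fc p c (N₂ q') (ray₂ q')) := by
    apply IsRelPrime.prod_left
    intro q hq
    apply IsRelPrime.prod_right
    intro q' _
    exact hrel q hq q'
  have hdvd : (∏ q ∈ R, Fc p c (N₁ q) (ray₁ q)) ∣ A := by
    apply hrel2.dvd_of_dvd_mul_right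
    rw [hid]
    exact Dvd.dvd.mul_left (Finset.prod_dvd_prod_of_subset _ _ _ (Finset.subset_univ R)) _
  obtain ⟨A'', hA''⟩ := hdvd
  refine ⟨A''.map (evalRingHom 1), fun t => ?_⟩
  rw [← ev2_eq]
  conv_lhs => rw [hA'', ev2_hom, map_mul, map_prod]
  simp only [← ev2_hom, ev2_Fc]
  ring

end Pool.Agent.W135.BF
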